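import Pool.Agent.W2helper18.HE.Core
import Pool.Agent.Helper392.Mey.JA

/-!
# MP_e08f0b_an, lower bound: choice of the parameters
-/

open MeasureTheory ProbabilityTheory Real

namespace Pool.Agent.W2helper18.HE

noncomputable section

/-- the extension property for a fixed metric space -/
def ExtX (α : ℝ) (n : ℕ) (c : ℝ) (X : Type) [MetricSpace X] : Prop :=
  ∀ (E : Set X) (φ : E → Vn n), (∀ x y : E, ‖φ x - φ y‖ ≤ dist (x : X) (y : X) ^ α) →
    ∃ ψ : X → Vn n, (∀ x : E, ψ (x : X) = φ x) ∧ ∀ x y, ‖ψ x - ψ y‖ ≤ c * dist x y ^ α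

theorem one_le {α : ℝ} (hα : 0 < α) {n : ℕ} (hn : 1 ≤ n) {c : ℝ} (h : ExtX α n c ℝ) :
    1 ≤ c := by
  classical
  set e : Vn n := ee ⟨0, hn⟩ with he
  have hen : ‖e‖ = 1 := by simp [he, ee]
  obtain ⟨ψ, h1, h2⟩ := h {0, 1} (fun x => if (x : ℝ) = 0 then 0 else e) (by
    rintro ⟨x, hx⟩ ⟨y, hy⟩
    simp only [Set.mem_insert_iff, Set.mem_singleton_iff] at hx hy
    rcases hx with rfl | rfl <;> rcases hy with rfl | rfl <;>
      simp [hα.ne', hen])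
  have a1 := h1 ⟨0, by simp⟩
  have a2 := h1 ⟨1, by simp⟩
  simp only [if_true, one_ne_zero, if_false] at a1 a2
  have a3 := h2 1 0
  rw [a1, a2] at a3
  simpa [hen] using a3

/-- the exponent of the lower bound -/
def expo (α : ℝ) : ℝ := (α - 1 / 2) * α / (4 * α - 1 - 2 * α ^ 2)

theorem final {α : ℝ} (h12 : 1 / 2 < α) (h1 : α < 1) :
    ∃ q : ℝ, 0 < q ∧ ∀ n : ℕ, 1 ≤ n → ∀ c : ℝ,
      (∀ (X : Type) [MetricSpace X], ExtX α n c X) → q * (n : ℝ) ^ expo α ≤ c := by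
  obtain ⟨N₀, κ, hN₀, hκ, hK⟩ := Pool.Agent.Helper392.Mey.kashin
  have hα0 : 0 < α := by linarith
  have h2α : 0 < 2 * α - 1 := by linarith
  have h1α : 0 < 1 - α := by linarith
  have hN0 : (0 : ℝ) < N₀ := by exact_mod_cast hN₀
  have hm4 := m4_nonneg
  obtain ⟨B, hB⟩ : ∃ B : ℝ, B = 30 * (1 + m4) := ⟨_, rfl⟩
  have hB0 : 0 < B := by rw [hB]; positivity
  obtain ⟨C, hC⟩ : ∃ C : ℝ, C = 2 * B + 78 := ⟨_, rfl⟩
  have hC0 : 0 < C := by rw [hC]; positivity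
  have hQ : 10 * QQ (B + 23) ≤ B ^ 2 := by
    unfold QQ
    rw [hB]
    nlinarith [mul_nonneg hm4 hm4]
  obtain ⟨δ, hδ⟩ : ∃ δ : ℝ, δ = min (1 / (80 * C)) ((1 / 1080) ^ (α / (2 * α - 1))) := ⟨_, rfl⟩
  have hδ0 : 0 < δ := by
    rw [hδ]
    exact lt_min (by positivity) (Real.rpow_pos_of_pos (by norm_num) _)
  have hδ1 : δ ≤ 1 / (80 * C) := by rw [hδ]; exact min_le_left _ _
  have hδ2 : δ ≤ (1 / 1080) ^ (α / (2 * α - 1)) := by rw [hδ]; exact min_le_right _ _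
  obtain ⟨β, hβ⟩ : ∃ β : ℝ, β = (2 * α - 1) * (1 - α) / α := ⟨_, rfl⟩
  have hβ0 : 0 < β := by rw [hβ]; positivity
  obtain ⟨a, ha⟩ : ∃ a : ℝ, a = κ * (N₀ * B) ^ (-(1 - α)) * δ ^ β / (8 * N₀ * C) := ⟨_, rfl⟩
  have ha0 : 0 < a := by
    rw [ha]
    have := Real.rpow_pos_of_pos (mul_pos hN0 hB0) (-(1 - α))
    have := Real.rpow_pos_of_pos hδ0 β
    positivity
  refine ⟨a ^ (1 / (1 + β)), Real.rpow_pos_of_pos ha0 _, ?_⟩
  intro n hn c hc
  have hn0 : (0 : ℝ) < n := by exact_mod_cast hn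
  have hs0 : (0 : ℝ) < √n := Real.sqrt_pos.2 hn0
  have hc1 : 1 ≤ c := one_le hα0 hn (hc ℝ)
  have hc0 : 0 < c := by linarith
  obtain ⟨A, hA1, hA2⟩ := hK n hn
  obtain ⟨r, hr⟩ : ∃ r : ℝ, r = (δ / c) ^ (1 / α) := ⟨_, rfl⟩
  have hdc : 0 < δ / c := by positivity
  have hr0 : 0 < r := by rw [hr]; exact Real.rpow_pos_of_pos hdc _
  have hrα : r ^ α = δ / c := by
    rw [hr, ← Real.rpow_mul hdc.le, one_div, inv_mul_cancel₀ hα0.ne', Real.rpow_one]
  have hdcδ : δ / c ≤ δ := div_le_self hδ0.le hc1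
  have hρ1 : r ^ (2 * α - 1) ≤ 1 / 1080 := by
    have e1 : r ^ (2 * α - 1) = (δ / c) ^ ((2 * α - 1) / α) := by
      rw [hr, ← Real.rpow_mul hdc.le]
      congr 1
      field_simp
    rw [e1]
    calc (δ / c) ^ ((2 * α - 1) / α)
        ≤ ((1 / 1080 : ℝ) ^ (α / (2 * α - 1))) ^ ((2 * α - 1) / α) :=
          Real.rpow_le_rpow hdc.le (hdcδ.trans hδ2) (by positivity)
      _ = 1 / 1080 := by
          rw [← Real.rpow_mul (by norm_num),
            show α / (2 * α - 1) * ((2 * α - 1) / α) = 1 by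
              rw [div_mul_div_comm, mul_comm (2 * α - 1) α]
              exact div_self (mul_pos hα0 h2α).ne', Real.rpow_one]
  have hr1 : r ≤ 1 := by
    by_contra hcon
    push Not at hcon
    have := Real.one_lt_rpow hcon h2α
    linarith
  have hrρ : r ≤ r ^ (2 * α - 1) := by
    conv_lhs => rw [← Real.rpow_one r]
    exact Real.rpow_le_rpow_of_exponent_ge hr0 hr1 (by linarith)
  have hmain := core hN₀ hκ hn A hA1 hA2 h12 h1 hc0.le (hc _) hr0 hrρ le_rfl hρ1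
    (B := B) (L := B ^ 2) (by
      rw [hrα, ← hC]
      have h80 : δ * (80 * C) ≤ 1 := by
        rw [le_div_iff₀ (by positivity)] at hδ1
        exact hδ1
      calc 2 * (C * c) * (δ / c) = 2 * (C * δ) := by field_simp
        _ ≤ 1 / 40 := by linarith) hB0 (by positivity) hQ hQ
  rw [Real.sqrt_sq hB0.le, ← hC] at hmain
  have hl0 : 0 < κ * √n := mul_pos hκ hs0
  have e2 : (κ * √n) ^ α * (r ^ (2 * α - 1) * (κ * √n) / (N₀ * n * B)) ^ (1 - α) =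
      κ * (N₀ * B) ^ (-(1 - α)) * δ ^ β * (n : ℝ) ^ (α - 1 / 2) * c ^ (-β) := by
    have hρ0 : 0 < r ^ (2 * α - 1) := Real.rpow_pos_of_pos hr0 _
    have s1 : (r ^ (2 * α - 1) * (κ * √n) / (N₀ * n * B)) ^ (1 - α) =
        (r ^ (2 * α - 1)) ^ (1 - α) * (κ * √n) ^ (1 - α) *
          ((N₀ * B) ^ (-(1 - α)) * (n : ℝ) ^ (-(1 - α))) := by
      rw [Real.div_rpow (by positivity) (by positivity), Real.mul_rpow hρ0.le hl0.le,
        div_eq_mul_inv, ← Real.rpow_neg (by positivity),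
        show (N₀ : ℝ) * n * B = N₀ * B * n by ring,
        Real.mul_rpow (by positivity) hn0.le]
    have s2 : (r ^ (2 * α - 1)) ^ (1 - α) = δ ^ β * c ^ (-β) := by
      rw [hr, ← Real.rpow_mul hdc.le, ← Real.rpow_mul hdc.le,
        show 1 / α * (2 * α - 1) * (1 - α) = β by rw [hβ]; ring,
        Real.div_rpow hδ0.le hc0.le, Real.rpow_neg hc0.le, div_eq_mul_inv]
    have s3 : (κ * √n) ^ α * (κ * √n) ^ (1 - α) = κ * √n := by
      rw [← Real.rpow_add hl0, show α + (1 - α) = 1 by ring, Real.rpow_one]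
    have s4 : √n * (n : ℝ) ^ (-(1 - α)) = (n : ℝ) ^ (α - 1 / 2) := by
      rw [Real.sqrt_eq_rpow, ← Real.rpow_add hn0]
      congr 1
      ring
    rw [s1, s2]
    calc (κ * √n) ^ α * (δ ^ β * c ^ (-β) * (κ * √n) ^ (1 - α) *
          ((N₀ * B) ^ (-(1 - α)) * (n : ℝ) ^ (-(1 - α))))
        = ((κ * √n) ^ α * (κ * √n) ^ (1 - α)) * (n : ℝ) ^ (-(1 - α)) *
          ((N₀ * B) ^ (-(1 - α)) * (δ ^ β * c ^ (-β))) := by ring
      _ = κ * (√n * (n : ℝ) ^ (-(1 - α))) *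
          ((N₀ * B) ^ (-(1 - α)) * (δ ^ β * c ^ (-β))) := by rw [s3]; ring
      _ = _ := by rw [s4]; ring
  rw [e2] at hmain
  have hcβ : c ^ (-β) * c ^ β = 1 := by
    rw [← Real.rpow_add hc0]; simp
  have hcβ0 : 0 < c ^ β := Real.rpow_pos_of_pos hc0 β
  have h3 : a * (n : ℝ) ^ (α - 1 / 2) ≤ c ^ (1 + β) := by
    have h4 := mul_le_mul_of_nonneg_right hmain hcβ0.le
    have h5 : κ * (N₀ * B) ^ (-(1 - α)) * δ ^ β * (n : ℝ) ^ (α - 1 / 2) ≤
        8 * N₀ * C * c ^ (1 + β) := by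
      calc κ * (N₀ * B) ^ (-(1 - α)) * δ ^ β * (n : ℝ) ^ (α - 1 / 2)
          = κ * (N₀ * B) ^ (-(1 - α)) * δ ^ β * (n : ℝ) ^ (α - 1 / 2) * c ^ (-β) * c ^ β := by
            rw [mul_assoc _ (c ^ (-β)), hcβ, mul_one]
        _ ≤ 8 * N₀ * (C * c) * c ^ β := h4
        _ = 8 * N₀ * C * c ^ (1 + β) := by
            rw [Real.rpow_add hc0, Real.rpow_one]; ring
    rw [ha, div_mul_eq_mul_div, div_le_iff₀ (by positivity)]
    linarith
  have hβ1 : 0 < 1 + β := by linarith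
  have h6 : (a * (n : ℝ) ^ (α - 1 / 2)) ^ (1 / (1 + β)) ≤ (c ^ (1 + β)) ^ (1 / (1 + β)) :=
    Real.rpow_le_rpow (by positivity) h3 (by positivity)
  rw [← Real.rpow_mul hc0.le, mul_one_div_cancel hβ1.ne', Real.rpow_one,
    Real.mul_rpow ha0.le (by positivity), ← Real.rpow_mul hn0.le] at h6
  have e3 : (α - 1 / 2) * (1 / (1 + β)) = expo α := by
    unfold expo
    have hd : 0 < 4 * α - 1 - 2 * α ^ 2 := by nlinarith
    have e4 : 1 + β = (4 * α - 1 - 2 * α ^ 2) / α := by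
      rw [hβ]; field_simp; ring
    rw [e4, one_div_div, mul_div_assoc]
  rw [e3] at h6
  exact h6

end

end Pool.Agent.W2helper18.HE
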