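import Mathlib

/-!
# MP_e08f0b_an, lower bound: the radial retraction
-/

namespace Pool.Agent.W2helper18.HE

noncomputable section

variable {V : Type*} [NormedAddCommGroup V] [NormedSpace ℝ V]

/-- the radial retraction onto the ball of radius `R` -/
def retr (R : ℝ) (y : V) : V := (R / max R ‖y‖) • y

theorem retr_norm {R : ℝ} (hR : 0 < R) (y : V) : ‖retr R y‖ ≤ R := by
  have hm : 0 < max R ‖y‖ := lt_of_lt_of_le hR (le_max_left _ _)
  rw [retr, norm_smul, Real.norm_of_nonneg (by positivity), div_mul_eq_mul_div,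
    div_le_iff₀ hm]
  exact mul_le_mul_of_nonneg_left (le_max_right _ _) hR.le

theorem retr_eq {R : ℝ} (hR : 0 < R) {y : V} (hy : ‖y‖ ≤ R) : retr R y = y := by
  rw [retr, max_eq_left hy, div_self hR.ne', one_smul]

theorem retr_lip {R : ℝ} (hR : 0 < R) (y z : V) : ‖retr R y - retr R z‖ ≤ 2 * ‖y - z‖ := by
  have hy : 0 < max R ‖y‖ := lt_of_lt_of_le hR (le_max_left _ _)
  have hz : 0 < max R ‖z‖ := lt_of_lt_of_le hR (le_max_left _ _)
  have e : retr R y - retr R z = (R / max R ‖y‖) • (y - z) +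
      (R / max R ‖y‖ - R / max R ‖z‖) • z := by
    simp only [retr]
    rw [smul_sub, sub_smul]
    abel
  have h1 : ‖(R / max R ‖y‖) • (y - z)‖ ≤ ‖y - z‖ := by
    rw [norm_smul, Real.norm_of_nonneg (by positivity)]
    exact mul_le_of_le_one_left (norm_nonneg _) ((div_le_one hy).2 (le_max_left _ _))
  have h2 : ‖(R / max R ‖y‖ - R / max R ‖z‖) • z‖ ≤ ‖y - z‖ := by
    have e2 : R / max R ‖y‖ - R / max R ‖z‖ =
        (R / max R ‖y‖) * (max R ‖z‖ - max R ‖y‖) / max R ‖z‖ := by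
      field_simp
    have h3 : |max R ‖z‖ - max R ‖y‖| ≤ ‖y - z‖ := by
      rw [max_comm R ‖z‖, max_comm R ‖y‖]
      refine (abs_max_sub_max_le_abs _ _ _).trans ?_
      rw [norm_sub_rev]
      exact abs_norm_sub_norm_le z y
    rw [norm_smul, e2, Real.norm_eq_abs, abs_div, abs_mul, abs_of_pos hz,
      abs_of_nonneg (show 0 ≤ R / max R ‖y‖ by positivity), div_mul_eq_mul_div, div_le_iff₀ hz]
    have h4 : R / max R ‖y‖ ≤ 1 := (div_le_one hy).2 (le_max_left _ _)
    calc R / max R ‖y‖ * |max R ‖z‖ - max R ‖y‖| * ‖z‖ ≤ 1 * ‖y - z‖ * max R ‖z‖ := by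
          gcongr
          exact le_max_right _ _
      _ = ‖y - z‖ * max R ‖z‖ := by ring
  rw [e]
  refine (norm_add_le _ _).trans ?_
  linarith

end

end Pool.Agent.W2helper18.HE
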