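import Pool.Agent.W2helper18.HE.Data
import Pool.Agent.W2helper18.HE.Retr

/-!
# MP_e08f0b_an, lower bound: the main inequality
-/

open MeasureTheory ProbabilityTheory Real
open scoped RealInnerProductSpace

namespace Pool.Agent.W2helper18.HE

noncomputable section

variable {n N : ℕ}

theorem holder_cont {X V : Type*} [MetricSpace X] [NormedAddCommGroup V] {f : X → V} {K α : ℝ}
    (hα : 0 < α) (hf : ∀ x y, ‖f x - f y‖ ≤ K * dist x y ^ α) : Continuous f := by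
  rw [continuous_iff_continuousAt]
  intro x
  unfold ContinuousAt
  rw [tendsto_iff_norm_sub_tendsto_zero]
  refine squeeze_zero (fun y => norm_nonneg _) (fun y => hf y x) ?_
  have h : Continuous fun y : X => K * dist y x ^ α :=
    continuous_const.mul ((continuous_id.dist continuous_const).rpow_const
      (fun _ => Or.inr hα.le))
  have h2 := h.tendsto x
  simpa [hα.ne'] using h2

theorem core {N₀ : ℕ} {κ : ℝ} (hN₀ : 0 < N₀) (hκ : 0 < κ) (hn : 1 ≤ n)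
    (A : Fin (N₀ * n) → (Vn n →L[ℝ] ℝ)) (hA : ∀ j, ‖A j‖ ≤ 1)
    (hlow : ∀ y, κ * √n * ‖y‖ ≤ ∑ j, |A j y|) {α c ρ r B L : ℝ} (h12 : 1 / 2 < α) (h1 : α < 1)
    (hc0 : 0 ≤ c)
    (hext : ∀ (E : Set (Xn (N₀ * n))) (φ : E → Vn n),
      (∀ x y : E, ‖φ x - φ y‖ ≤ dist (x : Xn (N₀ * n)) (y : Xn (N₀ * n)) ^ α) →
      ∃ ψ : Xn (N₀ * n) → Vn n, (∀ x : E, ψ (x : Xn (N₀ * n)) = φ x) ∧
        ∀ x y, ‖ψ x - ψ y‖ ≤ c * dist x y ^ α)
    (hr : 0 < r) (hrρ : r ≤ ρ) (hρr : ρ ≤ r ^ (2 * α - 1)) (hρ1 : ρ ≤ 1 / 1080)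
    (hsm : 2 * ((2 * B + 78) * c) * r ^ α ≤ 1 / 40) (hB : 0 < B) (hL : 0 < L)
    (hBQ : 10 * QQ (B + 23) ≤ B ^ 2) (hLQ : 10 * QQ (B + 23) ≤ L) :
    (κ * √n) ^ α * (ρ * (κ * √n) / (N₀ * n * √L)) ^ (1 - α) ≤ 8 * N₀ * ((2 * B + 78) * c) := by
  have hn0 : (0 : ℝ) < n := by exact_mod_cast hn
  have hs0 : (0 : ℝ) < √n := Real.sqrt_pos.2 hn0
  have hN0 : (0 : ℝ) < N₀ := by exact_mod_cast hN₀
  have hsL : 0 < √L := Real.sqrt_pos.2 hL
  have hρ : 0 < ρ := lt_of_lt_of_le hr hrρ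
  have hα0 : 0 < α := by linarith
  set lam := κ * √n with hlam
  have hlam0 : 0 < lam := mul_pos hκ hs0
  set C := 2 * B + 78 with hC
  have hC0 : 0 < C := by positivity
  set σ := ρ * lam / (N₀ * n * √L) with hσ
  have hσ0 : 0 < σ := by positivity
  have hla : 0 < lam ^ α := Real.rpow_pos_of_pos hlam0 α
  set R := B + 23 with hR
  have hR0 : 0 < R := by positivity
  obtain ⟨E, φ, hE1, hE2, hE3⟩ := exists_data hn A hA hlam0 hlow hB.le hr hrρ hρr
    (by linarith) h12 h1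
  obtain ⟨ψ', hψ1, hψ2⟩ := hext (E : Set (Xn (N₀ * n)))
    (fun x => (lam ^ α / C) • φ (x : Xn (N₀ * n))) (by
      intro x y
      rw [← smul_sub, norm_smul, Real.norm_of_nonneg (by positivity)]
      have h := hE1 x x.2 y y.2
      rw [Real.div_rpow dist_nonneg hlam0.le] at h
      calc lam ^ α / C * ‖φ (x : Xn (N₀ * n)) - φ (y : Xn (N₀ * n))‖
          ≤ lam ^ α / C * (C * (dist (x : Xn (N₀ * n)) (y : Xn (N₀ * n)) ^ α / lam ^ α)) :=
            mul_le_mul_of_nonneg_left h (by positivity)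
        _ = dist (x : Xn (N₀ * n)) (y : Xn (N₀ * n)) ^ α := by field_simp)
  set K := 2 * (C / lam ^ α * c) with hK
  have hK0 : 0 ≤ K := by positivity
  set ψ₁ : Xn (N₀ * n) → Vn n := fun x => retr R ((C / lam ^ α) • ψ' x) with hψ₁
  have hψE : ∀ x ∈ E, ψ₁ x = φ x := by
    intro x hx
    have h := hψ1 ⟨x, hx⟩
    simp only at h
    simp only [hψ₁]
    rw [h, smul_smul, show C / lam ^ α * (lam ^ α / C) = 1 by field_simp, one_smul]
    exact retr_eq hR0 (hE2 x hx)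
  have hψH : ∀ x y, ‖ψ₁ x - ψ₁ y‖ ≤ K * dist x y ^ α := by
    intro x y
    refine (retr_lip hR0 _ _).trans ?_
    rw [← smul_sub, norm_smul, Real.norm_of_nonneg (by positivity)]
    have h := mul_le_mul_of_nonneg_left (hψ2 x y) (show 0 ≤ C / lam ^ α by positivity)
    calc 2 * (C / lam ^ α * ‖ψ' x - ψ' y‖) ≤ 2 * (C / lam ^ α * (c * dist x y ^ α)) := by
          linarith
      _ = K * dist x y ^ α := by rw [hK]; ring
  have hψc : Continuous ψ₁ := holder_cont hα0 hψH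
  set ψ : (Fin (N₀ * n) → ℝ) → Vn n := fun x => ψ₁ (WithLp.toLp 1 x) with hψ
  have hψcont : Continuous ψ := hψc.comp (PiLp.continuous_toLp 1 _)
  have hψR : ∀ x, ‖ψ x‖ ≤ R := fun x => retr_norm hR0 _
  have hN1 : 1 ≤ N₀ * n := Nat.mul_pos hN₀ hn
  have hup := upper hn A hA hσ0 ψ hψcont hψR hK0 hα0.le h1.le (by
    intro x y j hxy
    refine (hψH _ _).trans (le_of_eq ?_)
    congr 2
    rw [PiLp.dist_eq_of_L1, Finset.sum_eq_single j]
    · rfl
    · intro k _ hk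
      simp only
      rw [hxy k hk, dist_self]
    · simp)
  have hlo := lower hn hN1 A σ ψ hψcont hR0.le hψR hB hL hBQ hLQ (by
    intro ω hω1 hω2
    set u : Vn n := (√n)⁻¹ • gg ω with hu
    have huB : ‖u‖ ≤ B := by
      rw [hu, norm_smul, norm_inv, Real.norm_of_nonneg hs0.le, inv_mul_le_iff₀ hs0]
      refine abs_le_of_sq_le_sq' ?_ (by positivity) |>.2
      rw [mul_pow, Real.sq_sqrt hn0.le]
      linarith
    have hdist : dist (WithLp.toLp 1 (XX A σ ω) : Xn (N₀ * n)) (emb A u) ≤ lam * ρ := by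
      rw [PiLp.dist_eq_of_L1]
      have e1 : ∀ j, dist ((WithLp.toLp 1 (XX A σ ω) : Xn (N₀ * n)) j) ((emb A u) j) =
          σ * |ω (Sum.inr j)| := by
        intro j
        simp only [emb, XX, hu, Real.dist_eq, map_smul, smul_eq_mul]
        rw [show A j (gg ω) / √n + σ * ω (Sum.inr j) - (√n)⁻¹ * A j (gg ω) =
          σ * ω (Sum.inr j) by ring, abs_mul, abs_of_pos hσ0]
      rw [Finset.sum_congr rfl fun j _ => e1 j, ← Finset.mul_sum]
      have h2 : ∑ j : Fin (N₀ * n), |ω (Sum.inr j)| ≤ (N₀ * n) * √L := by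
        refine abs_le_of_sq_le_sq' ?_ (by positivity) |>.2
        have h3 := sq_sum_le_card_mul_sum_sq (s := (Finset.univ : Finset (Fin (N₀ * n))))
          (f := fun j => |ω (Sum.inr j)|)
        rw [Finset.card_univ, Fintype.card_fin] at h3
        simp only [sq_abs] at h3
        push_cast at h3 hω2
        calc (∑ j : Fin (N₀ * n), |ω (Sum.inr j)|) ^ 2
            ≤ N₀ * n * ∑ j : Fin (N₀ * n), ω (Sum.inr j) ^ 2 := h3
          _ ≤ N₀ * n * (L * (N₀ * n)) := mul_le_mul_of_nonneg_left hω2 (by positivity)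
          _ = (N₀ * n * √L) ^ 2 := by
            rw [mul_pow, Real.sq_sqrt hL.le]; ring
      calc σ * ∑ j : Fin (N₀ * n), |ω (Sum.inr j)| ≤ σ * ((N₀ * n) * √L) :=
            mul_le_mul_of_nonneg_left h2 hσ0.le
        _ = lam * ρ := by rw [hσ]; field_simp
    obtain ⟨e, he, hxe, heu⟩ := hE3 u huB _ hdist
    have h4 : ‖ψ (XX A σ ω) - φ e‖ ≤ 1 / 40 := by
      rw [← hψE e he]
      refine (hψH _ _).trans ?_
      calc K * dist (WithLp.toLp 1 (XX A σ ω) : Xn (N₀ * n)) e ^ α ≤ K * (lam * r) ^ α := by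
            gcongr
        _ = 2 * (C * c) * r ^ α := by
            rw [hK, Real.mul_rpow hlam0.le hr.le]; field_simp
        _ ≤ 1 / 40 := hsm
    have h5 : ‖ψ (XX A σ ω) - u‖ ≤ ‖ψ (XX A σ ω) - φ e‖ + ‖φ e - u‖ := by
      have e1 : ψ (XX A σ ω) - u = (ψ (XX A σ ω) - φ e) + (φ e - u) := by abel
      rw [e1]
      exact norm_add_le _ _
    linarith)
  -- combination
  have h3 : √n * (√n / 2) ≤ σ⁻¹ * (((N₀ * n : ℕ) : ℝ) * (K * (2 * σ) ^ α)) :=
    (mul_le_mul_of_nonneg_left hlo hs0.le).trans hup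
  have h4 : √(n : ℝ) * √n = n := Real.mul_self_sqrt hn0.le
  have h5 : √n * (√n / 2) = (n : ℝ) / 2 := by rw [← mul_div_assoc, h4]
  rw [h5] at h3
  push_cast at h3
  rw [Real.mul_rpow (by norm_num) hσ0.le] at h3
  have h2a : (2 : ℝ) ^ α ≤ 2 := by
    conv_rhs => rw [← Real.rpow_one 2]
    exact Real.rpow_le_rpow_of_exponent_le (by norm_num) h1.le
  have hσα : 0 < σ ^ α := Real.rpow_pos_of_pos hσ0 α
  have hσα' : 0 < σ ^ (1 - α) := Real.rpow_pos_of_pos hσ0 _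
  have hσs : σ ^ (1 - α) * σ ^ α = σ := by
    rw [← Real.rpow_add hσ0]; simp
  have h6 : (n : ℝ) / 2 * σ ≤ N₀ * n * (K * (2 * σ ^ α)) := by
    rw [inv_mul_eq_div, le_div_iff₀ hσ0] at h3
    refine h3.trans ?_
    gcongr
  have h7 : σ ^ (1 - α) ≤ 4 * N₀ * K := by
    have h8 : (n * σ ^ α / 2) * σ ^ (1 - α) ≤ (n * σ ^ α / 2) * (4 * N₀ * K) := by
      calc (n * σ ^ α / 2) * σ ^ (1 - α) = (n : ℝ) / 2 * (σ ^ (1 - α) * σ ^ α) := by ring
        _ = (n : ℝ) / 2 * σ := by rw [hσs]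
        _ ≤ N₀ * n * (K * (2 * σ ^ α)) := h6
        _ = (n * σ ^ α / 2) * (4 * N₀ * K) := by ring
    exact le_of_mul_le_mul_left h8 (by positivity)
  calc lam ^ α * σ ^ (1 - α) ≤ lam ^ α * (4 * N₀ * K) := mul_le_mul_of_nonneg_left h7 hla.le
    _ = 8 * N₀ * (C * c) := by rw [hK]; field_simp; ring

end

end Pool.Agent.W2helper18.HE
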