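import Mathlib

/-!
# MP_e08f0b_an, lower bound: finite separated nets of bounded sets
-/

namespace Pool.Agent.W2helper18.HE

open Metric

theorem exists_net {X : Type*} [MetricSpace X] [ProperSpace X] (A : Set X)
    (hA : Bornology.IsBounded A) {r : ℝ} (hr : 0 < r) :
    ∃ E : Finset X, (∀ e ∈ E, e ∈ A) ∧ (∀ x ∈ E, ∀ y ∈ E, x ≠ y → r < dist x y) ∧
      ∀ x ∈ A, ∃ e ∈ E, dist x e ≤ r := by
  classical
  set ε : NNReal := r.toNNReal with hε
  have hεr : (ε : ENNReal) = ENNReal.ofReal r := rfl
  have hε0 : ε ≠ 0 := (Real.toNNReal_pos.2 hr).ne'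
  have hc : IsCompact (closure A) := hA.isCompact_closure
  have hfin : packingNumber ε A ≠ ⊤ := by
    obtain ⟨N, -, hNf, hN⟩ := exists_finite_isCover_of_isCompact_closure
      (ε := ε / 2) (by simpa using hε0) hc
    have h1 := hN.externalCoveringNumber_le_encard
    have h2 := packingNumber_two_mul_le_externalCoveringNumber (ε / 2) A
    have h3 : 2 * (ε / 2) = ε := by
      rw [mul_div_cancel₀]; norm_num
    rw [h3] at h2
    have h4 : N.encard < ⊤ := by
      rw [Set.encard_lt_top_iff]; exact hNf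
    exact ((h2.trans h1).trans_lt h4).ne
  have hs := isSeparated_maximalSeparatedSet (ε := ε) (A := A)
  have hcov := isCover_maximalSeparatedSet hfin
  have hsub := maximalSeparatedSet_subset (ε := ε) (A := A)
  have hf : (maximalSeparatedSet ε A).Finite := by
    rw [← Set.encard_lt_top_iff, encard_maximalSeparatedSet hfin]
    exact lt_top_iff_ne_top.mpr hfin
  refine ⟨hf.toFinset, ?_, ?_, ?_⟩
  · intro e he
    exact hsub ((Set.Finite.mem_toFinset hf).1 he)
  · intro x hx y hy hxy
    have : (ε : ENNReal) < edist x y :=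
      hs ((Set.Finite.mem_toFinset hf).1 hx) ((Set.Finite.mem_toFinset hf).1 hy) hxy
    rw [edist_dist, hεr] at this
    exact (ENNReal.ofReal_lt_ofReal_iff_of_nonneg hr.le).1 this
  · intro x hx
    obtain ⟨e, he, hxe⟩ := hcov hx
    refine ⟨e, (Set.Finite.mem_toFinset hf).2 he, ?_⟩
    have : edist x e ≤ ε := hxe
    rw [edist_dist, hεr] at this
    exact (ENNReal.ofReal_le_ofReal_iff hr.le).1 this

end Pool.Agent.W2helper18.HE
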