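import Pool.Agent.W2helper18.HE.G3
import Pool.Agent.W2helper18.HE.Net
import Pool.Agent.Helper802.HolderExt.Local

/-!
# MP_e08f0b_an, lower bound: the finite set and the map which are hard to extend
-/

open MeasureTheory ProbabilityTheory Real

namespace Pool.Agent.W2helper18.HE

noncomputable section

variable {n N : ℕ}

/-- the big space -/
abbrev Xn (N : ℕ) := PiLp 1 (fun _ : Fin N => ℝ)

/-- the embedding -/
def emb (A : Fin N → (Vn n →L[ℝ] ℝ)) (y : Vn n) : Xn N := WithLp.toLp 1 (fun j => A j y)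

theorem emb_dist (A : Fin N → (Vn n →L[ℝ] ℝ)) {lam : ℝ}
    (hlow : ∀ y, lam * ‖y‖ ≤ ∑ j, |A j y|) (y z : Vn n) :
    lam * ‖y - z‖ ≤ dist (emb A y) (emb A z) := by
  rw [PiLp.dist_eq_of_L1]
  simpa [emb, Real.dist_eq, map_sub] using hlow (y - z)

theorem emb_bdd (A : Fin N → (Vn n →L[ℝ] ℝ)) (hA : ∀ j, ‖A j‖ ≤ 1) (B S : ℝ) :
    Bornology.IsBounded {x : Xn N | ∃ u : Vn n, ‖u‖ ≤ B ∧ dist x (emb A u) ≤ S} := by
  rw [isBounded_iff_forall_norm_le]
  refine ⟨S + N * B, ?_⟩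
  rintro x ⟨u, hu, hx⟩
  have h1 : ‖x‖ ≤ dist x (emb A u) + ‖emb A u‖ := by
    rw [dist_eq_norm]
    calc ‖x‖ = ‖(x - emb A u) + emb A u‖ := by rw [sub_add_cancel]
      _ ≤ _ := norm_add_le _ _
  have h2 : ‖emb A u‖ ≤ N * B := by
    rw [PiLp.norm_eq_of_L1]
    calc ∑ i, ‖(emb A u) i‖ ≤ ∑ _i : Fin N, B := by
          refine Finset.sum_le_sum fun i _ => ?_
          calc ‖A i u‖ ≤ ‖A i‖ * ‖u‖ := (A i).le_opNorm u
            _ ≤ 1 * B := mul_le_mul (hA i) hu (norm_nonneg _) zero_le_one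
            _ = B := one_mul B
      _ = N * B := by simp
  linarith

theorem exists_data (hn : 1 ≤ n) (A : Fin N → (Vn n →L[ℝ] ℝ)) (hA : ∀ j, ‖A j‖ ≤ 1)
    {lam B ρ r α : ℝ} (hlam : 0 < lam)
    (hlow : ∀ y, lam * ‖y‖ ≤ ∑ j, |A j y|) (hB : 0 ≤ B) (hr : 0 < r) (hrρ : r ≤ ρ)
    (hρr : ρ ≤ r ^ (2 * α - 1)) (hρ1 : ρ ≤ 1) (h12 : 1 / 2 < α) (h1 : α < 1) :
    ∃ (E : Finset (Xn N)) (φ : Xn N → Vn n),
      (∀ x ∈ E, ∀ y ∈ E, ‖φ x - φ y‖ ≤ (2 * B + 78) * (dist x y / lam) ^ α) ∧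
      (∀ x ∈ E, ‖φ x‖ ≤ B + 23) ∧
      (∀ u : Vn n, ‖u‖ ≤ B → ∀ x : Xn N, dist x (emb A u) ≤ lam * ρ →
        ∃ e ∈ E, dist x e ≤ lam * r ∧ ‖φ e - u‖ ≤ 27 * ρ) := by
  classical
  have hρ : 0 < ρ := lt_of_lt_of_le hr hrρ
  obtain ⟨E, hE1, hE2, hE3⟩ := exists_net _ (emb_bdd A hA B (2 * (lam * ρ)))
    (mul_pos hlam hr)
  -- base points
  choose! uu huB huD using fun (x : Xn N) (hx : x ∈ {x : Xn N | ∃ u : Vn n, ‖u‖ ≤ B ∧
    dist x (emb A u) ≤ 2 * (lam * ρ)}) => hx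
  have hembd := emb_dist A hlow
  have hinj : Function.Injective (emb A) := by
    intro y z hyz
    have h := hembd y z
    rw [hyz, dist_self] at h
    have h2 : ‖y - z‖ ≤ 0 := by
      by_contra hcon
      push Not at hcon
      have := mul_pos hlam hcon
      linarith
    exact sub_eq_zero.1 (norm_le_zero_iff.1 h2)
  set F : Finset (Xn N) := E ∪ E.image (fun e => emb A (uu e)) with hF
  have hEF : ∀ x ∈ E, x ∈ F := fun x hx => Finset.mem_union_left _ hx
  have hUF : ∀ x ∈ E, emb A (uu x) ∈ F := fun x hx =>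
    Finset.mem_union_right _ (Finset.mem_image_of_mem _ hx)
  set Eb : Finset F := Finset.univ.filter (fun m : F => ∃ e ∈ E, (m : Xn N) = emb A (uu e))
    with hEb
  set iv : Xn N → Vn n := Function.invFun (emb A) with hiv
  have hive : ∀ u, iv (emb A u) = u := Function.leftInverse_invFun hinj
  set D : F → F → ℝ := fun x y => dist (x : Xn N) (y : Xn N) / (lam * ρ) with hD
  have hlr : 0 < lam * ρ := mul_pos hlam hρ
  have hD0 : ∀ x y, 0 ≤ D x y := fun x y => div_nonneg dist_nonneg hlr.le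
  have hDs : ∀ x y, D x y = D y x := fun x y => by simp only [hD, dist_comm]
  have hDt : ∀ x y z, D x z ≤ D x y + D y z := fun x y z => by
    simp only [hD]
    rw [← add_div]
    exact div_le_div_of_nonneg_right (dist_triangle _ _ _) hlr.le
  have hDp : ∀ x y : F, x ≠ y → 0 < D x y := fun x y hxy =>
    div_pos (dist_pos.2 fun h => hxy (Subtype.ext h)) hlr
  have hDD : ∀ x, D x x = 0 := fun x => by simp [hD]
  have hφb : ∀ e ∈ Eb, ∀ e' ∈ Eb,
      ‖ρ⁻¹ • iv (e : Xn N) - ρ⁻¹ • iv (e' : Xn N)‖ ≤ 1 + D e e' := by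
    intro e he e' he'
    obtain ⟨a, -, ha⟩ := (Finset.mem_filter.1 he).2
    obtain ⟨b, -, hb⟩ := (Finset.mem_filter.1 he').2
    rw [← smul_sub, norm_smul, norm_inv, Real.norm_of_nonneg hρ.le]
    simp only [hD]
    rw [ha, hb, hive, hive]
    have h := hembd (uu a) (uu b)
    have h2 : ρ⁻¹ * ‖uu a - uu b‖ ≤ dist (emb A (uu a)) (emb A (uu b)) / (lam * ρ) := by
      rw [le_div_iff₀ hlr]
      calc ρ⁻¹ * ‖uu a - uu b‖ * (lam * ρ) = lam * ‖uu a - uu b‖ := by field_simp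
        _ ≤ _ := h
    linarith
  -- case of the empty net
  rcases E.eq_empty_or_nonempty with hEe | hEne
  · refine ⟨∅, fun _ => 0, by simp, by simp, ?_⟩
    intro u hu x hx
    obtain ⟨e, he, -⟩ := hE3 x ⟨u, hu, by linarith⟩
    rw [hEe] at he
    simp at he
  have hEbne : Eb.Nonempty := by
    obtain ⟨e, he⟩ := hEne
    exact ⟨⟨emb A (uu e), hUF e he⟩, Finset.mem_filter.2 ⟨Finset.mem_univ _, e, he, rfl⟩⟩
  obtain ⟨Ψ, hΨ1, hΨ2⟩ := Helper802.HolderExt.local_ext (V := Vn n) (M := F) (E := Eb) (D := D)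
    (φ := fun e => ρ⁻¹ • iv (e : Xn N)) hD0 hDs hDt hφb
    (by rw [finrank_euclideanSpace_fin]; exact hn) hDp hDD hEbne
  set φ : Xn N → Vn n := fun x => if hx : x ∈ F then ρ • Ψ ⟨x, hx⟩ else 0 with hφ
  have hφF : ∀ x (hx : x ∈ F), φ x = ρ • Ψ ⟨x, hx⟩ := fun x hx => by
    simp only [hφ, hx, dif_pos]
  have hbase : ∀ x ∈ E, ∀ (y : Xn N), y ∈ E → dist y (emb A (uu x)) ≤ 5 * (lam * ρ) →
      ‖φ y - uu x‖ ≤ 23 * ρ := by
    intro x hx y hy hxy
    have h := hΨ1 ⟨y, hEF y hy⟩ ⟨emb A (uu x), hUF x hx⟩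
      (Finset.mem_filter.2 ⟨Finset.mem_univ _, x, hx, rfl⟩)
      (by
        simp only [hD]
        rw [div_le_iff₀ hlr]
        exact hxy)
    simp only [hive] at h
    rw [hφF y (hEF y hy)]
    have e1 : ρ • Ψ ⟨y, hEF y hy⟩ - uu x = ρ • (Ψ ⟨y, hEF y hy⟩ - ρ⁻¹ • uu x) := by
      rw [smul_sub, smul_smul, mul_inv_cancel₀ hρ.ne', one_smul]
    rw [e1, norm_smul, Real.norm_of_nonneg hρ.le]
    nlinarith
  have huu : ∀ x ∈ E, dist x (emb A (uu x)) ≤ 2 * (lam * ρ) := fun x hx => huD x (hE1 x hx)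
  have hself : ∀ x ∈ E, ‖φ x - uu x‖ ≤ 23 * ρ := fun x hx =>
    hbase x hx x hx ((huu x hx).trans (by nlinarith))
  have hnorm : ∀ x ∈ E, ‖φ x‖ ≤ B + 23 := by
    intro x hx
    have h2 : ‖φ x‖ ≤ ‖φ x - uu x‖ + ‖uu x‖ := by
      calc ‖φ x‖ = ‖(φ x - uu x) + uu x‖ := by rw [sub_add_cancel]
        _ ≤ _ := norm_add_le _ _
    have h3 := hself x hx
    have h4 := huB x (hE1 x hx)
    nlinarith
  refine ⟨E, φ, ?_, hnorm, ?_⟩
  · intro x hx y hy
    rcases eq_or_ne x y with rfl | hxy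
    · rw [sub_self, norm_zero]
      positivity
    set t := dist x y / lam with ht
    have ht0 : 0 < t := div_pos (dist_pos.2 hxy) hlam
    have hdt : dist x y = lam * t := by rw [ht]; field_simp
    have hrt : r ≤ t := by
      have h2 := hE2 x hx y hy hxy
      rw [hdt] at h2
      exact (lt_of_mul_lt_mul_left h2 hlam.le).le
    have htα : 0 < t ^ α := Real.rpow_pos_of_pos ht0 α
    rcases le_or_gt t ρ with htρ | htρ
    · have h2 := (hΨ2 ⟨x, hEF x hx⟩ ⟨y, hEF y hy⟩ ⟨emb A (uu x), hUF x hx⟩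
        (Finset.mem_filter.2 ⟨Finset.mem_univ _, x, hx, rfl⟩)
        (by
          simp only [hD]
          rw [div_le_iff₀ hlr]
          linarith [huu x hx])
        (by
          simp only [hD]
          rw [div_le_iff₀ hlr]
          have h3 := dist_triangle y x (emb A (uu x))
          have h4 := huu x hx
          rw [dist_comm y x, hdt] at h3
          nlinarith)
        (by
          simp only [hD]
          rw [div_le_iff₀ hlr, hdt]
          nlinarith)).2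
      have e1 : D ⟨x, hEF x hx⟩ ⟨y, hEF y hy⟩ = t / ρ := by
        simp only [hD]
        rw [hdt]
        field_simp
      rw [e1] at h2
      rw [hφF x (hEF x hx), hφF y (hEF y hy), ← smul_sub, norm_smul, Real.norm_of_nonneg hρ.le]
      have h3 : ρ * √(t / ρ) ≤ t ^ α := by
        have h4 : ρ ≤ t ^ (2 * α - 1) :=
          hρr.trans (Real.rpow_le_rpow hr.le hrt (by linarith))
        have h5 : ρ * √(t / ρ) = √(ρ * t) := by
          rw [eq_comm, Real.sqrt_eq_iff_mul_self_eq (by positivity) (by positivity)]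
          have h6 : √(t / ρ) * √(t / ρ) = t / ρ := Real.mul_self_sqrt (by positivity)
          calc ρ * t = ρ * ρ * (√(t / ρ) * √(t / ρ)) := by rw [h6]; field_simp
            _ = ρ * √(t / ρ) * (ρ * √(t / ρ)) := by ring
        rw [h5]
        refine Real.sqrt_le_iff.2 ⟨htα.le, ?_⟩
        calc ρ * t ≤ t ^ (2 * α - 1) * t := mul_le_mul_of_nonneg_right h4 ht0.le
          _ = t ^ (2 * α - 1 + 1) := (Real.rpow_add_one ht0.ne' _).symm
          _ = t ^ (α * 2) := by congr 1; ring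
          _ = (t ^ α) ^ (2 : ℝ) := Real.rpow_mul ht0.le _ _
          _ = (t ^ α) ^ 2 := Real.rpow_two _
      calc ρ * ‖Ψ ⟨x, hEF x hx⟩ - Ψ ⟨y, hEF y hy⟩‖ ≤ ρ * (78 * √(t / ρ)) :=
            mul_le_mul_of_nonneg_left h2 hρ.le
        _ = 78 * (ρ * √(t / ρ)) := by ring
        _ ≤ 78 * t ^ α := mul_le_mul_of_nonneg_left h3 (by norm_num)
        _ ≤ (2 * B + 78) * t ^ α := mul_le_mul_of_nonneg_right (by linarith) htα.le
    · rcases le_or_gt t 1 with ht1 | ht1
      · have h2 : ‖φ x - φ y‖ ≤ ‖φ x - uu x‖ + ‖uu x - uu y‖ + ‖φ y - uu y‖ := by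
          have e1 : φ x - φ y = (φ x - uu x) + (uu x - uu y) - (φ y - uu y) := by abel
          rw [e1]
          exact (norm_sub_le _ _).trans (by gcongr; exact norm_add_le _ _)
        have h3 : lam * ‖uu x - uu y‖ ≤ lam * (t + 4 * ρ) := by
          refine (hembd (uu x) (uu y)).trans ?_
          have h4 := dist_triangle4 (emb A (uu x)) x y (emb A (uu y))
          have h5 := huu x hx
          have h6 := huu y hy
          rw [dist_comm (emb A (uu x)) x, hdt] at h4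
          nlinarith
        have h4 : ‖uu x - uu y‖ ≤ t + 4 * ρ := le_of_mul_le_mul_left h3 hlam
        have h5 := hself x hx
        have h6 := hself y hy
        have h7 : t ≤ t ^ α := by
          conv_lhs => rw [← Real.rpow_one t]
          exact Real.rpow_le_rpow_of_exponent_ge ht0 ht1 h1.le
        nlinarith
      · have h2 : ‖φ x - φ y‖ ≤ ‖φ x‖ + ‖φ y‖ := norm_sub_le _ _
        have h3 := hnorm x hx
        have h4 := hnorm y hy
        have h5 : 1 ≤ t ^ α := Real.one_le_rpow ht1.le (by linarith)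
        nlinarith
  · intro u hu x hx
    obtain ⟨e, he, hxe⟩ := hE3 x ⟨u, hu, by linarith⟩
    refine ⟨e, he, hxe, ?_⟩
    have h2 : dist e (emb A u) ≤ 2 * (lam * ρ) := by
      have h3 := dist_triangle e x (emb A u)
      rw [dist_comm e x] at h3
      nlinarith
    have h3 : lam * ‖uu e - u‖ ≤ lam * (4 * ρ) := by
      refine (hembd (uu e) u).trans ?_
      have h4 := dist_triangle (emb A (uu e)) e (emb A u)
      rw [dist_comm (emb A (uu e)) e] at h4
      have h5 := huu e he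
      nlinarith
    have h4 : ‖uu e - u‖ ≤ 4 * ρ := le_of_mul_le_mul_left h3 hlam
    have h5 : ‖φ e - u‖ ≤ ‖φ e - uu e‖ + ‖uu e - u‖ := by
      have e1 : φ e - u = (φ e - uu e) + (uu e - u) := by abel
      rw [e1]
      exact norm_add_le _ _
    have h6 := hself e he
    linarith

end

end Pool.Agent.W2helper18.HE
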