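import Mathlib

/-!
# MP_e08f0b_an, lower bound: Gaussian tools
-/

open MeasureTheory ProbabilityTheory Real
open scoped RealInnerProductSpace ENNReal

namespace Pool.Agent.W2helper18.HE

noncomputable section

variable {I : Type} [Fintype I]

/-- orthogonal linear functionals are independent under the standard Gaussian measure -/
theorem orth_int {κ : Type} [Fintype κ] (z : EuclideanSpace ℝ I) (a : κ → EuclideanSpace ℝ I)
    (h : ∀ k, ⟪a k, z⟫ = 0) (F : (κ → ℝ) → ℝ) (hF : Measurable F) :
    ∫ ω, F (fun k => ⟪a k, ω⟫) * ⟪z, ω⟫ ∂(stdGaussian (EuclideanSpace ℝ I)) = 0 := by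
  set P := stdGaussian (EuclideanSpace ℝ I) with hP
  have hG : HasGaussianLaw (fun ω : EuclideanSpace ℝ I =>
      ((fun k => ⟪a k, ω⟫), (fun _ : Unit => ⟪z, ω⟫))) P := by
    have h1 : HasGaussianLaw (id : EuclideanSpace ℝ I → EuclideanSpace ℝ I) P :=
      IsGaussian.hasGaussianLaw_id
    exact h1.map_fun ((ContinuousLinearMap.pi fun k => innerSL ℝ (a k)).prod
      (ContinuousLinearMap.pi fun _ : Unit => innerSL ℝ z))
  have hind := hG.indepFun_of_covariance_eval (X := fun k ω => ⟪a k, ω⟫)
    (Y := fun (_ : Unit) ω => ⟪z, ω⟫) (by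
      intro k _
      have h2 := covarianceBilin_apply_eq_cov (μ := P) IsGaussian.memLp_two_id (a k) z
      rw [hP, covarianceBilin_stdGaussian, innerSL_apply_apply, h k] at h2
      exact h2.symm)
  have hind2 : IndepFun (fun ω => F (fun k => ⟪a k, ω⟫)) (fun ω => ⟪z, ω⟫) P :=
    hind.comp (φ := F) (ψ := fun y : Unit → ℝ => y ()) hF (measurable_pi_apply _)
  have h3 := hind2.integral_fun_mul_eq_mul_integral (hF.comp (by fun_prop)).aestronglyMeasurable
    (by fun_prop)
  rw [h3]
  have h4 : ∫ ω, ⟪z, ω⟫ ∂P = 0 := integral_strongDual_stdGaussian (innerSL ℝ z)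
  rw [h4, mul_zero]

theorem coord_law [DecidableEq I] (i : I) :
    MeasurePreserving (fun ω : EuclideanSpace ℝ I => ω i) (stdGaussian (EuclideanSpace ℝ I))
      (gaussianReal 0 1) := by
  rw [← map_pi_eq_stdGaussian]
  have h1 : MeasurePreserving (Function.eval i) (Measure.pi fun _ : I => gaussianReal 0 1)
    (gaussianReal 0 1) := measurePreserving_eval _ i
  refine ⟨by fun_prop, ?_⟩
  rw [Measure.map_map (by fun_prop) (by fun_prop)]
  exact h1.map_eq

theorem coord_int [DecidableEq I] (i : I) (f : ℝ → ℝ) (hf : Measurable f) :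
    ∫ ω : EuclideanSpace ℝ I, f (ω i) ∂(stdGaussian (EuclideanSpace ℝ I)) =
      ∫ x, f x ∂(gaussianReal 0 1) := by
  have h := coord_law i
  rw [← h.map_eq, integral_map h.aemeasurable hf.aestronglyMeasurable]

theorem coord_integrable [DecidableEq I] (i : I) (f : ℝ → ℝ)
    (hi : Integrable f (gaussianReal 0 1)) :
    Integrable (fun ω : EuclideanSpace ℝ I => f (ω i)) (stdGaussian (EuclideanSpace ℝ I)) := by
  have h := coord_law i
  exact h.integrable_comp_of_integrable hi

theorem pow_integrable (k : ℕ) : Integrable (fun x : ℝ => x ^ k) (gaussianReal 0 1) := by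
  rcases Nat.eq_zero_or_pos k with rfl | hk
  · simp
  have h : MemLp id (k : ℝ≥0∞) (gaussianReal 0 1) := memLp_id_gaussianReal' _ (by simp)
  have h2 := h.integrable_norm_pow hk.ne'
  refine h2.mono' (by fun_prop) (Filter.Eventually.of_forall fun x => ?_)
  simp

/-- the fourth moment -/
def m4 : ℝ := ∫ x, x ^ 4 ∂(gaussianReal 0 1)

theorem m4_nonneg : 0 ≤ m4 := integral_nonneg fun x => by positivity

theorem m2_eq : ∫ x, x ^ 2 ∂(gaussianReal 0 1) = 1 := by
  have h := variance_eq_sub (μ := gaussianReal 0 1) (X := id) (memLp_id_gaussianReal' _ (by simp))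
  rw [variance_id_gaussianReal] at h
  simp only [id_eq, Pi.pow_apply] at h
  have h2 : ∫ x, x ∂(gaussianReal 0 1) = 0 := integral_id_gaussianReal
  rw [h2] at h
  simpa using h.symm

end

end Pool.Agent.W2helper18.HE
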