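import Pool.Agent.W2helper18.HE.G1

/-!
# MP_e08f0b_an, lower bound: Gaussian integration by parts for Hölder maps
-/

open MeasureTheory ProbabilityTheory Real
open scoped RealInnerProductSpace ENNReal

namespace Pool.Agent.W2helper18.HE

noncomputable section

/-- the space of the Gaussian vectors -/
abbrev Om (n N : ℕ) := EuclideanSpace ℝ (Fin n ⊕ Fin N)

/-- the target space -/
abbrev Vn (n : ℕ) := EuclideanSpace ℝ (Fin n)

variable {n N : ℕ}

/-- the first `n` coordinates -/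
def gg (ω : Om n N) : Vn n := WithLp.toLp 2 (fun i => ω (Sum.inl i))

/-- the random point of the big space -/
def XX (A : Fin N → (Vn n →L[ℝ] ℝ)) (ρ : ℝ) (ω : Om n N) : Fin N → ℝ :=
  fun j => A j (gg ω) / √n + ρ * ω (Sum.inr j)

/-- unit vectors of the target space -/
def ee (i : Fin n) : Vn n := EuclideanSpace.single i (1 : ℝ)

theorem expand (L : Vn n →L[ℝ] ℝ) (y : Vn n) : L y = ∑ i, y i * L (ee i) := by
  conv_lhs => rw [show y = ∑ i, y i • ee i by
    ext k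
    simp [ee, Pi.single_apply]]
  rw [map_sum]
  simp

/-- the vectors defining `XX` -/
def av (A : Fin N → (Vn n →L[ℝ] ℝ)) (ρ : ℝ) (j : Fin N) : Om n N :=
  WithLp.toLp 2 (Sum.elim (fun i => A j (ee i) / √n) (fun k => if k = j then ρ else 0))

/-- the vectors orthogonal to them -/
def zv (A : Fin N → (Vn n →L[ℝ] ℝ)) (ρ : ℝ) (i : Fin n) : Om n N :=
  WithLp.toLp 2 (Sum.elim (fun k => if k = i then √n else 0) (fun j => -(A j (ee i) / ρ)))

theorem av_inner (A : Fin N → (Vn n →L[ℝ] ℝ)) (ρ : ℝ) (j : Fin N) (ω : Om n N) :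
    ⟪av A ρ j, ω⟫ = XX A ρ ω j := by
  rw [PiLp.inner_apply, Fintype.sum_sum_type, XX, expand (A j) (gg ω)]
  simp only [av, Sum.elim_inl, Sum.elim_inr, RCLike.inner_apply, conj_trivial, gg]
  congr 1
  · rw [Finset.sum_div]
    exact Finset.sum_congr rfl fun i _ => by ring
  · simp [mul_comm]

theorem zv_inner (A : Fin N → (Vn n →L[ℝ] ℝ)) (ρ : ℝ) (i : Fin n) (ω : Om n N) :
    ⟪zv A ρ i, ω⟫ = √n * gg ω i - ρ⁻¹ * ∑ j, ω (Sum.inr j) * A j (ee i) := by
  rw [PiLp.inner_apply, Fintype.sum_sum_type]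
  simp only [zv, Sum.elim_inl, Sum.elim_inr, RCLike.inner_apply, conj_trivial, gg]
  rw [sub_eq_add_neg]
  congr 1
  · simp [mul_comm]
  · rw [Finset.mul_sum, ← Finset.sum_neg_distrib]
    exact Finset.sum_congr rfl fun j _ => by ring

theorem av_zv (hn : 1 ≤ n) (A : Fin N → (Vn n →L[ℝ] ℝ)) {ρ : ℝ} (hρ : 0 < ρ) (j : Fin N)
    (i : Fin n) : ⟪av A ρ j, zv A ρ i⟫ = 0 := by
  have hn0 : (0 : ℝ) < √n := Real.sqrt_pos.2 (by exact_mod_cast hn)
  rw [PiLp.inner_apply, Fintype.sum_sum_type]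
  simp only [av, zv, Sum.elim_inl, Sum.elim_inr, RCLike.inner_apply, conj_trivial]
  have h1 : ∑ x, (if x = i then √(n : ℝ) else 0) * (A j (ee x) / √n) = A j (ee i) := by
    simp only [ite_mul, zero_mul, Finset.sum_ite_eq', Finset.mem_univ, if_true]
    field_simp
  have h2 : ∑ x, -(A x (ee i) / ρ) * (if x = j then ρ else 0) = -A j (ee i) := by
    simp only [mul_ite, mul_zero, Finset.sum_ite_eq', Finset.mem_univ, if_true]
    field_simp
  rw [h1, h2]
  ring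

theorem sum_id (A : Fin N → (Vn n →L[ℝ] ℝ)) (ρ : ℝ) (y : Vn n) (ω : Om n N) :
    ∑ i, y i * ⟪zv A ρ i, ω⟫ = √n * ⟪y, gg ω⟫ - ρ⁻¹ * ∑ j, ω (Sum.inr j) * A j y := by
  simp only [zv_inner, mul_sub, Finset.sum_sub_distrib]
  congr 1
  · rw [PiLp.inner_apply, Finset.mul_sum]
    refine Finset.sum_congr rfl fun i _ => ?_
    simp only [RCLike.inner_apply, conj_trivial]
    ring
  · rw [Finset.mul_sum]
    simp_rw [expand (A _) y, Finset.mul_sum]
    rw [Finset.sum_comm]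
    refine Finset.sum_congr rfl fun i _ => Finset.sum_congr rfl fun j _ => by ring

/-- the Gaussian measure -/
abbrev PP (n N : ℕ) : Measure (Om n N) := stdGaussian (Om n N)

theorem gg_cont : Continuous (gg : Om n N → Vn n) := by
  unfold gg
  fun_prop

theorem XX_cont (A : Fin N → (Vn n →L[ℝ] ℝ)) (ρ : ℝ) : Continuous (XX A ρ : Om n N → _) := by
  unfold XX
  have := gg_cont (n := n) (N := N)
  fun_prop

/-- bounded times linear is integrable -/
theorem int_bdd {f : Om n N → ℝ} (hf : Continuous f) {R : ℝ} (hR : ∀ ω, |f ω| ≤ R)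
    (L : Om n N →L[ℝ] ℝ) : Integrable (fun ω => f ω * L ω) (PP n N) := by
  have h1 : Integrable (fun ω => L ω) (PP n N) :=
    L.integrable_comp IsGaussian.integrable_id
  refine (h1.norm.const_mul R).mono' (hf.mul L.continuous).aestronglyMeasurable
    (Filter.Eventually.of_forall fun ω => ?_)
  rw [norm_mul, Real.norm_eq_abs]
  exact mul_le_mul_of_nonneg_right (hR ω) (norm_nonneg _)

/-- the coordinate functional -/
def cc (k : Fin n ⊕ Fin N) : Om n N →L[ℝ] ℝ := innerSL ℝ (EuclideanSpace.single k (1 : ℝ))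

theorem cc_apply (k : Fin n ⊕ Fin N) (ω : Om n N) : cc k ω = ω k := by
  rw [cc, innerSL_apply_apply, EuclideanSpace.inner_single_left]
  simp

theorem comp_le (y : Vn n) (i : Fin n) : |y i| ≤ ‖y‖ := by
  have := PiLp.norm_apply_le y i
  simpa using this

/-- integration by parts -/
theorem ibp (hn : 1 ≤ n) (A : Fin N → (Vn n →L[ℝ] ℝ)) {ρ : ℝ} (hρ : 0 < ρ)
    (ψ : (Fin N → ℝ) → Vn n) (hψ : Continuous ψ) {R : ℝ} (hR : ∀ x, ‖ψ x‖ ≤ R) :
    √n * ∫ ω, ⟪ψ (XX A ρ ω), gg ω⟫ ∂(PP n N) =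
      ρ⁻¹ * ∑ j, ∫ ω, ω (Sum.inr j) * A j (ψ (XX A ρ ω)) ∂(PP n N) := by
  have hX := XX_cont (n := n) (N := N) A ρ
  have hψX : Continuous fun ω : Om n N => ψ (XX A ρ ω) := hψ.comp hX
  have h0 : ∀ i : Fin n, ∫ ω, (ψ (XX A ρ ω)) i * ⟪zv A ρ i, ω⟫ ∂(PP n N) = 0 := by
    intro i
    have := orth_int (zv A ρ i) (av A ρ) (fun j => av_zv hn A hρ j i) (fun x => (ψ x) i)
      (by
        have : Continuous fun x => (ψ x) i := by fun_prop
        exact this.measurable)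
    simp only [av_inner] at this
    exact this
  have hi0 : ∀ i : Fin n, Integrable (fun ω => (ψ (XX A ρ ω)) i * ⟪zv A ρ i, ω⟫) (PP n N) := by
    intro i
    exact int_bdd (f := fun ω => (ψ (XX A ρ ω)) i) (by fun_prop)
      (fun ω => (comp_le _ i).trans (hR _)) (innerSL ℝ (zv A ρ i))
  have hi1 : ∀ j : Fin N, Integrable (fun ω => ω (Sum.inr j) * A j (ψ (XX A ρ ω))) (PP n N) := by
    intro j
    have := int_bdd (f := fun ω => A j (ψ (XX A ρ ω))) (by fun_prop) (R := ‖A j‖ * R)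
      (fun ω => ((A j).le_opNorm _).trans (mul_le_mul_of_nonneg_left (hR _) (norm_nonneg _)))
      (cc (Sum.inr j))
    refine this.congr (Filter.Eventually.of_forall fun ω => ?_)
    simp only [cc_apply]
    ring
  have hi2 : Integrable (fun ω => ⟪ψ (XX A ρ ω), gg ω⟫) (PP n N) := by
    have : ∀ i : Fin n, Integrable (fun ω => (ψ (XX A ρ ω)) i * gg ω i) (PP n N) := by
      intro i
      have := int_bdd (f := fun ω => (ψ (XX A ρ ω)) i) (by fun_prop)
        (fun ω => (comp_le _ i).trans (hR _)) (cc (Sum.inl i : Fin n ⊕ Fin N))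
      refine this.congr (Filter.Eventually.of_forall fun ω => ?_)
      simp only [cc_apply]
      rfl
    refine (integrable_finsetSum Finset.univ fun i _ => this i).congr
      (Filter.Eventually.of_forall fun ω => ?_)
    simp only [PiLp.inner_apply, RCLike.inner_apply, conj_trivial]
    exact Finset.sum_congr rfl fun i _ => mul_comm _ _
  have h1 : ∫ ω, ∑ i, (ψ (XX A ρ ω)) i * ⟪zv A ρ i, ω⟫ ∂(PP n N) = 0 := by
    rw [integral_finsetSum _ fun i _ => hi0 i]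
    exact Finset.sum_eq_zero fun i _ => h0 i
  simp only [sum_id] at h1
  rw [integral_sub (hi2.const_mul _) ((integrable_finsetSum _ fun j _ => hi1 j).const_mul _),
    integral_const_mul, integral_const_mul, integral_finsetSum _ fun j _ => hi1 j] at h1
  linarith

/-- the reflection of one coordinate -/
def tau (j : Fin N) : Om n N ≃ₗᵢ[ℝ] Om n N :=
  LinearIsometryEquiv.piLpCongrRight 2 (fun k : Fin n ⊕ Fin N =>
    if k = Sum.inr j then LinearIsometryEquiv.neg ℝ else LinearIsometryEquiv.refl ℝ ℝ)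

theorem tau_same (j : Fin N) (ω : Om n N) : tau j ω (Sum.inr j) = -ω (Sum.inr j) := by
  simp [tau]

theorem tau_other (j : Fin N) (ω : Om n N) {k : Fin n ⊕ Fin N} (hk : k ≠ Sum.inr j) :
    tau j ω k = ω k := by
  simp [tau, hk]

theorem pow_le_one_add_sq {x α : ℝ} (hx : 0 ≤ x) (h0 : 0 ≤ α) (h1 : α ≤ 1) :
    x * x ^ α ≤ 1 + x ^ 2 := by
  rcases le_total x 1 with h | h
  · have h2 : x ^ α ≤ 1 := Real.rpow_le_one hx h h0
    have h3 : x * x ^ α ≤ 1 * 1 := mul_le_mul h h2 (Real.rpow_nonneg hx _) (by norm_num)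
    nlinarith
  · have h2 : x ^ α ≤ x ^ (1 : ℝ) := Real.rpow_le_rpow_of_exponent_le h h1
    rw [Real.rpow_one] at h2
    nlinarith

/-- one coordinate direction contributes little -/
theorem one_dir (A : Fin N → (Vn n →L[ℝ] ℝ)) (hA : ∀ j, ‖A j‖ ≤ 1) {ρ : ℝ} (hρ : 0 < ρ)
    (ψ : (Fin N → ℝ) → Vn n) (hψ : Continuous ψ) {R : ℝ} (hR : ∀ x, ‖ψ x‖ ≤ R)
    {K α : ℝ} (hK : 0 ≤ K) (h0 : 0 ≤ α) (h1 : α ≤ 1)
    (hH : ∀ x y : Fin N → ℝ, ∀ j, (∀ k, k ≠ j → x k = y k) → ‖ψ x - ψ y‖ ≤ K * |x j - y j| ^ α)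
    (j : Fin N) :
    |∫ ω, ω (Sum.inr j) * A j (ψ (XX A ρ ω)) ∂(PP n N)| ≤ K * (2 * ρ) ^ α := by
  have hX := XX_cont (n := n) (N := N) A ρ
  have hψX : Continuous fun ω : Om n N => ψ (XX A ρ ω) := hψ.comp hX
  have hi1 : Integrable (fun ω => ω (Sum.inr j) * A j (ψ (XX A ρ ω))) (PP n N) := by
    have := int_bdd (f := fun ω => A j (ψ (XX A ρ ω))) (by fun_prop) (R := ‖A j‖ * R)
      (fun ω => ((A j).le_opNorm _).trans (mul_le_mul_of_nonneg_left (hR _) (norm_nonneg _)))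
      (cc (Sum.inr j))
    refine this.congr (Filter.Eventually.of_forall fun ω => ?_)
    simp only [cc_apply]
    ring
  have hmp : MeasurePreserving (tau (n := n) j) (PP n N) (PP n N) :=
    ⟨(tau j).continuous.measurable, stdGaussian_map (tau j)⟩
  have hi2 : Integrable (fun ω => tau j ω (Sum.inr j) * A j (ψ (XX A ρ (tau j ω)))) (PP n N) :=
    hmp.integrable_comp_of_integrable hi1
  have hE : ∫ ω, tau j ω (Sum.inr j) * A j (ψ (XX A ρ (tau j ω))) ∂(PP n N) =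
      ∫ ω, ω (Sum.inr j) * A j (ψ (XX A ρ ω)) ∂(PP n N) := by
    have := hmp.integral_comp (tau (n := n) (N := N) j).toHomeomorph.measurableEmbedding
      (fun ω => ω (Sum.inr j) * A j (ψ (XX A ρ ω)))
    exact this
  have hsum : 2 * ∫ ω, ω (Sum.inr j) * A j (ψ (XX A ρ ω)) ∂(PP n N) =
      ∫ ω, (ω (Sum.inr j) * A j (ψ (XX A ρ ω)) +
        tau j ω (Sum.inr j) * A j (ψ (XX A ρ (tau j ω)))) ∂(PP n N) := by
    rw [integral_add hi1 hi2, hE]
    ring
  have hpt : ∀ ω : Om n N, |ω (Sum.inr j) * A j (ψ (XX A ρ ω)) +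
        tau j ω (Sum.inr j) * A j (ψ (XX A ρ (tau j ω)))| ≤
        K * (2 * ρ) ^ α * (1 + (ω (Sum.inr j)) ^ 2) := by
    intro ω
    rw [tau_same]
    have e1 : ω (Sum.inr j) * A j (ψ (XX A ρ ω)) +
        -ω (Sum.inr j) * A j (ψ (XX A ρ (tau j ω))) =
        ω (Sum.inr j) * A j (ψ (XX A ρ ω) - ψ (XX A ρ (tau j ω))) := by
      rw [map_sub]; ring
    rw [e1, abs_mul]
    have hgg : gg (tau j ω) = gg ω := by
      unfold gg
      congr 1
    have h2 : ‖ψ (XX A ρ ω) - ψ (XX A ρ (tau j ω))‖ ≤ K * (2 * ρ * |ω (Sum.inr j)|) ^ α := by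
      refine (hH _ _ j ?_).trans (le_of_eq ?_)
      · intro k hk
        unfold XX
        rw [hgg, tau_other j ω (by simpa using hk)]
      · congr 2
        unfold XX
        rw [hgg, tau_same]
        rw [show A j (gg ω) / √n + ρ * ω (Sum.inr j) - (A j (gg ω) / √n + ρ * -ω (Sum.inr j)) =
          2 * ρ * ω (Sum.inr j) by ring, abs_mul, abs_of_pos (by positivity)]
    have h3 : |A j (ψ (XX A ρ ω) - ψ (XX A ρ (tau j ω)))| ≤
        K * (2 * ρ * |ω (Sum.inr j)|) ^ α := by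
      refine (((A j).le_opNorm _).trans ?_).trans h2
      exact mul_le_of_le_one_left (norm_nonneg _) (hA j)
    calc |ω (Sum.inr j)| * |A j (ψ (XX A ρ ω) - ψ (XX A ρ (tau j ω)))|
        ≤ |ω (Sum.inr j)| * (K * (2 * ρ * |ω (Sum.inr j)|) ^ α) :=
          mul_le_mul_of_nonneg_left h3 (abs_nonneg _)
      _ = K * (2 * ρ) ^ α * (|ω (Sum.inr j)| * |ω (Sum.inr j)| ^ α) := by
          rw [Real.mul_rpow (by positivity) (abs_nonneg _)]; ring
      _ ≤ K * (2 * ρ) ^ α * (1 + |ω (Sum.inr j)| ^ 2) :=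
          mul_le_mul_of_nonneg_left (pow_le_one_add_sq (abs_nonneg _) h0 h1) (by positivity)
      _ = _ := by rw [sq_abs]
  have hi3 : Integrable (fun ω : Om n N => (1 : ℝ) + (ω (Sum.inr j)) ^ 2) (PP n N) :=
    (integrable_const 1).add (coord_integrable (Sum.inr j) (fun x => x ^ 2) (pow_integrable 2))
  have hv : ∫ ω : Om n N, ((1 : ℝ) + (ω (Sum.inr j)) ^ 2) ∂(PP n N) = 2 := by
    rw [integral_add (integrable_const 1)
      (coord_integrable (Sum.inr j) (fun x => x ^ 2) (pow_integrable 2)),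
      coord_int (Sum.inr j) (fun x => x ^ 2) (by fun_prop), m2_eq]
    simp only [integral_const, probReal_univ, smul_eq_mul, one_mul]
    norm_num
  have h4 : |∫ ω, (ω (Sum.inr j) * A j (ψ (XX A ρ ω)) +
        tau j ω (Sum.inr j) * A j (ψ (XX A ρ (tau j ω)))) ∂(PP n N)| ≤
        K * (2 * ρ) ^ α * 2 := by
    have h5 : K * (2 * ρ) ^ α * 2 =
        ∫ ω : Om n N, K * (2 * ρ) ^ α * ((1 : ℝ) + (ω (Sum.inr j)) ^ 2) ∂(PP n N) := by
      rw [integral_const_mul, hv]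
    rw [h5]
    refine abs_integral_le_integral_abs.trans ?_
    exact integral_mono (hi1.add hi2).abs (hi3.const_mul _) hpt
  rw [← hsum, abs_mul, abs_of_pos (by norm_num : (0 : ℝ) < 2)] at h4
  linarith

/-- the upper bound -/
theorem upper (hn : 1 ≤ n) (A : Fin N → (Vn n →L[ℝ] ℝ)) (hA : ∀ j, ‖A j‖ ≤ 1) {ρ : ℝ}
    (hρ : 0 < ρ) (ψ : (Fin N → ℝ) → Vn n) (hψ : Continuous ψ) {R : ℝ} (hR : ∀ x, ‖ψ x‖ ≤ R)
    {K α : ℝ} (hK : 0 ≤ K) (h0 : 0 ≤ α) (h1 : α ≤ 1)
    (hH : ∀ x y : Fin N → ℝ, ∀ j, (∀ k, k ≠ j → x k = y k) →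
      ‖ψ x - ψ y‖ ≤ K * |x j - y j| ^ α) :
    √n * ∫ ω, ⟪ψ (XX A ρ ω), gg ω⟫ ∂(PP n N) ≤ ρ⁻¹ * (N * (K * (2 * ρ) ^ α)) := by
  rw [ibp hn A hρ ψ hψ hR]
  refine mul_le_mul_of_nonneg_left ?_ (by positivity)
  calc ∑ j, ∫ ω, ω (Sum.inr j) * A j (ψ (XX A ρ ω)) ∂(PP n N)
      ≤ ∑ _j : Fin N, K * (2 * ρ) ^ α :=
        Finset.sum_le_sum fun j _ =>
          (le_abs_self _).trans (one_dir A hA hρ ψ hψ hR hK h0 h1 hH j)
    _ = N * (K * (2 * ρ) ^ α) := by simp

end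

end Pool.Agent.W2helper18.HE
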