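import Pool.Agent.W2helper18.HE.G2

/-!
# MP_e08f0b_an, lower bound: the correlation of the extension with the Gaussian vector
-/

open MeasureTheory ProbabilityTheory Real
open scoped RealInnerProductSpace ENNReal

namespace Pool.Agent.W2helper18.HE

noncomputable section

variable {n N : ℕ}

/-- average of the `k`-th powers of the first coordinates -/
def avl (k : ℕ) (ω : Om n N) : ℝ := (∑ i : Fin n, ω (Sum.inl i) ^ k) / n

/-- average of the `k`-th powers of the last coordinates -/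
def avr (k : ℕ) (ω : Om n N) : ℝ := (∑ j : Fin N, ω (Sum.inr j) ^ k) / N

theorem avl_int (k : ℕ) : Integrable (avl k : Om n N → ℝ) (PP n N) := by
  unfold avl
  exact (integrable_finsetSum _ fun i _ =>
    coord_integrable (Sum.inl i) (fun x => x ^ k) (pow_integrable k)).div_const _

theorem avr_int (k : ℕ) : Integrable (avr k : Om n N → ℝ) (PP n N) := by
  unfold avr
  exact (integrable_finsetSum _ fun i _ =>
    coord_integrable (Sum.inr i) (fun x => x ^ k) (pow_integrable k)).div_const _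

theorem avl_val (hn : 1 ≤ n) (k : ℕ) :
    ∫ ω : Om n N, avl k ω ∂(PP n N) = ∫ x, x ^ k ∂(gaussianReal 0 1) := by
  have hn0 : (n : ℝ) ≠ 0 := by exact_mod_cast (by omega : n ≠ 0)
  unfold avl
  rw [integral_div, integral_finsetSum _ fun i _ =>
    coord_integrable (Sum.inl i) (fun x => x ^ k) (pow_integrable k)]
  rw [Finset.sum_congr rfl fun i _ => coord_int (Sum.inl i) (fun x => x ^ k) (by fun_prop)]
  simp
  field_simp

theorem avr_val (hN : 1 ≤ N) (k : ℕ) :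
    ∫ ω : Om n N, avr k ω ∂(PP n N) = ∫ x, x ^ k ∂(gaussianReal 0 1) := by
  have hn0 : (N : ℝ) ≠ 0 := by exact_mod_cast (by omega : N ≠ 0)
  unfold avr
  rw [integral_div, integral_finsetSum _ fun i _ =>
    coord_integrable (Sum.inr i) (fun x => x ^ k) (pow_integrable k)]
  rw [Finset.sum_congr rfl fun i _ => coord_int (Sum.inr i) (fun x => x ^ k) (by fun_prop)]
  simp
  field_simp

theorem sq_avg {m : ℕ} (hm : 1 ≤ m) (f : Fin m → ℝ) :
    ((∑ i, f i ^ 2) / m) ^ 2 ≤ (∑ i, f i ^ 4) / m := by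
  have hm0 : (0 : ℝ) < m := by exact_mod_cast hm
  have h := sq_sum_le_card_mul_sum_sq (s := (Finset.univ : Finset (Fin m)))
    (f := fun i => f i ^ 2)
  rw [Finset.card_univ, Fintype.card_fin] at h
  rw [div_pow, div_le_div_iff₀ (by positivity) hm0]
  have e : ∀ i, (f i ^ 2) ^ 2 = f i ^ 4 := fun i => by ring
  simp only [e] at h
  nlinarith

theorem gg_sq (ω : Om n N) : ‖gg ω‖ ^ 2 = ∑ i : Fin n, ω (Sum.inl i) ^ 2 := by
  rw [EuclideanSpace.real_norm_sq_eq]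
  rfl

/-- the constant of the lower bound -/
def QQ (R : ℝ) : ℝ := m4 + R * (1 + m4) / 2

theorem lower_pt (hn : 1 ≤ n) (hN : 1 ≤ N) {R B L : ℝ} (hR0 : 0 ≤ R) (hB : 0 < B) (hL : 0 < L)
    (y : Vn n) (hy : ‖y‖ ≤ R) (ω : Om n N)
    (hc : ‖gg ω‖ ^ 2 ≤ B ^ 2 * n → ∑ j : Fin N, ω (Sum.inr j) ^ 2 ≤ L * N →
      ‖y - (√n)⁻¹ • gg ω‖ ≤ 1 / 20) :
    avl 2 ω - (1 + avl 2 ω) / 40 - (avl 4 ω + R * (avl 2 ω + avl 4 ω) / 2) / B ^ 2 -
      ((avl 4 ω + avr 4 ω) / 2 + R * (avl 2 ω + avr 4 ω) / 2) / L ≤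
      (√n)⁻¹ * ⟪y, gg ω⟫ := by
  have hn0 : (0 : ℝ) < n := by exact_mod_cast hn
  have hN0 : (0 : ℝ) < N := by exact_mod_cast hN
  have hs0 : (0 : ℝ) < √n := Real.sqrt_pos.2 hn0
  set U : Vn n := (√n)⁻¹ • gg ω with hU
  set a := ‖U‖ with ha
  have ha0 : 0 ≤ a := norm_nonneg _
  set s := avr 2 ω with hs
  have hs00 : 0 ≤ s := by
    rw [hs]; unfold avr; positivity
  have ha2 : a ^ 2 = avl 2 ω := by
    rw [ha, hU, norm_smul, mul_pow, gg_sq, norm_inv, Real.norm_of_nonneg hs0.le, inv_pow,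
      Real.sq_sqrt hn0.le]
    unfold avl
    rw [div_eq_inv_mul]
  have ha4 : a ^ 4 ≤ avl 4 ω := by
    have h := sq_avg hn (fun i => ω (Sum.inl i))
    have h2 : (∑ i : Fin n, ω (Sum.inl i) ^ 2) / n = a ^ 2 := by rw [ha2]; rfl
    rw [h2] at h
    calc a ^ 4 = (a ^ 2) ^ 2 := by ring
      _ ≤ _ := h
  have hs4 : s ^ 2 ≤ avr 4 ω := sq_avg hN (fun i => ω (Sum.inr i))
  have hin : (√n)⁻¹ * ⟪y, gg ω⟫ = ⟪y, U⟫ := by
    rw [hU, inner_smul_right]
  rw [hin, ← ha2]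
  have hyU : |⟪y, U⟫| ≤ R * a :=
    (abs_real_inner_le_norm y U).trans (mul_le_mul_of_nonneg_right hy ha0)
  have hB2 : 0 < B ^ 2 := by positivity
  -- the error term
  set X1 := (avl 4 ω + R * (a ^ 2 + avl 4 ω) / 2) / B ^ 2 with hX1
  set X2 := ((avl 4 ω + avr 4 ω) / 2 + R * (a ^ 2 + avr 4 ω) / 2) / L with hX2
  have hX1' : (a ^ 2 + R * a) * (a ^ 2 / B ^ 2) ≤ X1 := by
    rw [hX1, ← mul_div_assoc]
    refine div_le_div_of_nonneg_right ?_ hB2.le
    have h1 : a * a ^ 2 ≤ (a ^ 2 + a ^ 4) / 2 := by nlinarith [sq_nonneg (a * (a - 1))]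
    nlinarith [mul_le_mul_of_nonneg_left h1 hR0, mul_le_mul_of_nonneg_left ha4 hR0]
  have hX2' : (a ^ 2 + R * a) * (s / L) ≤ X2 := by
    rw [hX2, ← mul_div_assoc]
    refine div_le_div_of_nonneg_right ?_ hL.le
    have h1 : a ^ 2 * s ≤ (avl 4 ω + avr 4 ω) / 2 := by nlinarith [sq_nonneg (a ^ 2 - s)]
    have h2 : a * s ≤ (a ^ 2 + avr 4 ω) / 2 := by nlinarith [sq_nonneg (a - s)]
    nlinarith [mul_le_mul_of_nonneg_left h2 hR0]
  have hX10 : 0 ≤ X1 := le_trans (by positivity) hX1'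
  have hX20 : 0 ≤ X2 := le_trans (by positivity) hX2'
  have ha1 : a / 20 ≤ (1 + a ^ 2) / 40 := by nlinarith [sq_nonneg (a - 1)]
  by_cases h : a ^ 2 / B ^ 2 ≤ 1 ∧ s / L ≤ 1
  · have h1 : ‖gg ω‖ ^ 2 ≤ B ^ 2 * n := by
      have h3 : a ^ 2 ≤ B ^ 2 := (div_le_one hB2).1 h.1
      have h4 : ‖gg ω‖ ^ 2 = a ^ 2 * n := by
        rw [ha2, gg_sq]; unfold avl; field_simp
      rw [h4]
      exact mul_le_mul_of_nonneg_right h3 hn0.le
    have h2 : ∑ j : Fin N, ω (Sum.inr j) ^ 2 ≤ L * N := by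
      have h3 : s ≤ L := (div_le_one hL).1 h.2
      have h4 : ∑ j : Fin N, ω (Sum.inr j) ^ 2 = s * N := by
        rw [hs]; unfold avr; field_simp
      rw [h4]
      exact mul_le_mul_of_nonneg_right h3 hN0.le
    have h3 := hc h1 h2
    have h4 : ⟪y, U⟫ = ⟪y - U, U⟫ + a ^ 2 := by
      rw [inner_sub_left, real_inner_self_eq_norm_sq]; ring
    have h5 : |⟪y - U, U⟫| ≤ 1 / 20 * a :=
      (abs_real_inner_le_norm _ _).trans (mul_le_mul_of_nonneg_right h3 ha0)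
    have h6 := (abs_le.1 h5).1
    linarith
  · have h1 : 1 ≤ a ^ 2 / B ^ 2 + s / L := by
      have h3 : 0 ≤ a ^ 2 / B ^ 2 := by positivity
      have h4 : 0 ≤ s / L := by positivity
      by_contra hcon
      exact h ⟨by linarith, by linarith⟩
    have h2 : a ^ 2 + R * a ≤ X1 + X2 := by
      have h3 : 0 ≤ a ^ 2 + R * a := by positivity
      calc a ^ 2 + R * a ≤ (a ^ 2 + R * a) * (a ^ 2 / B ^ 2 + s / L) :=
            le_mul_of_one_le_right h3 h1
        _ ≤ _ := by rw [mul_add]; linarith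
    have h6 := (abs_le.1 hyU).1
    nlinarith [sq_nonneg a]

theorem int_comb {f g h : Om n N → ℝ} (hf : Integrable f (PP n N)) (hg : Integrable g (PP n N))
    (hh : Integrable h (PP n N)) (a b c d : ℝ) :
    ∫ ω, (a * f ω + b * g ω + c * h ω + d) ∂(PP n N) =
      a * ∫ ω, f ω ∂(PP n N) + b * ∫ ω, g ω ∂(PP n N) + c * ∫ ω, h ω ∂(PP n N) + d := by
  have h1 : Integrable (fun ω => a * f ω) (PP n N) := hf.const_mul a
  have h2 : Integrable (fun ω => b * g ω) (PP n N) := hg.const_mul b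
  have h3 : Integrable (fun ω => c * h ω) (PP n N) := hh.const_mul c
  have h4 : Integrable (fun ω => a * f ω + b * g ω) (PP n N) := h1.add h2
  have h5 : Integrable (fun ω => a * f ω + b * g ω + c * h ω) (PP n N) := h4.add h3
  rw [integral_add h5 (integrable_const d), integral_add h4 h3, integral_add h1 h2,
    integral_const_mul, integral_const_mul, integral_const_mul]
  simp

theorem lower (hn : 1 ≤ n) (hN : 1 ≤ N) (A : Fin N → (Vn n →L[ℝ] ℝ)) (ρ : ℝ)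
    (ψ : (Fin N → ℝ) → Vn n) (hψ : Continuous ψ) {R : ℝ} (hR0 : 0 ≤ R) (hR : ∀ x, ‖ψ x‖ ≤ R)
    {B L : ℝ} (hB : 0 < B) (hL : 0 < L) (hBQ : 10 * QQ R ≤ B ^ 2) (hLQ : 10 * QQ R ≤ L)
    (hc : ∀ ω : Om n N, ‖gg ω‖ ^ 2 ≤ B ^ 2 * n → ∑ j : Fin N, ω (Sum.inr j) ^ 2 ≤ L * N →
      ‖ψ (XX A ρ ω) - (√n)⁻¹ • gg ω‖ ≤ 1 / 20) :
    √n / 2 ≤ ∫ ω, ⟪ψ (XX A ρ ω), gg ω⟫ ∂(PP n N) := by
  have hn0 : (0 : ℝ) < n := by exact_mod_cast hn
  have hs0 : (0 : ℝ) < √n := Real.sqrt_pos.2 hn0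
  have hX := XX_cont (n := n) (N := N) A ρ
  have hψX : Continuous fun ω : Om n N => ψ (XX A ρ ω) := hψ.comp hX
  have hi2 : Integrable (fun ω => ⟪ψ (XX A ρ ω), gg ω⟫) (PP n N) := by
    have : ∀ i : Fin n, Integrable (fun ω => (ψ (XX A ρ ω)) i * gg ω i) (PP n N) := by
      intro i
      have := int_bdd (f := fun ω => (ψ (XX A ρ ω)) i) (by fun_prop)
        (fun ω => (comp_le _ i).trans (hR _)) (cc (Sum.inl i : Fin n ⊕ Fin N))
      refine this.congr (Filter.Eventually.of_forall fun ω => ?_)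
      simp only [cc_apply]
      rfl
    refine (integrable_finsetSum Finset.univ fun i _ => this i).congr
      (Filter.Eventually.of_forall fun ω => ?_)
    simp only [PiLp.inner_apply, RCLike.inner_apply, conj_trivial]
    exact Finset.sum_congr rfl fun i _ => mul_comm _ _
  have hpt := fun ω => lower_pt hn hN hR0 hB hL (ψ (XX A ρ ω)) (hR _) ω (hc ω)
  have I2 := avl_int (n := n) (N := N) 2
  have I4 := avl_int (n := n) (N := N) 4
  have J4 := avr_int (n := n) (N := N) 4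
  have hint : Integrable (fun ω : Om n N => avl 2 ω - (1 + avl 2 ω) / 40 -
      (avl 4 ω + R * (avl 2 ω + avl 4 ω) / 2) / B ^ 2 -
      ((avl 4 ω + avr 4 ω) / 2 + R * (avl 2 ω + avr 4 ω) / 2) / L) (PP n N) := by
    have h1 : Integrable (fun ω : Om n N => (1 + avl 2 ω) / 40) (PP n N) :=
      ((integrable_const _).add I2).div_const _
    have h2 : Integrable (fun ω : Om n N => (avl 4 ω + R * (avl 2 ω + avl 4 ω) / 2) / B ^ 2)
      (PP n N) := (I4.add (((I2.add I4).const_mul R).div_const 2)).div_const _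
    have h3 : Integrable (fun ω : Om n N => ((avl 4 ω + avr 4 ω) / 2 +
      R * (avl 2 ω + avr 4 ω) / 2) / L) (PP n N) :=
      (((I4.add J4).div_const 2).add (((I2.add J4).const_mul R).div_const 2)).div_const _
    exact ((I2.sub h1).sub h2).sub h3
  have h1 := integral_mono hint (hi2.const_mul (√n)⁻¹) hpt
  have h2 : ∫ ω : Om n N, (avl 2 ω - (1 + avl 2 ω) / 40 -
      (avl 4 ω + R * (avl 2 ω + avl 4 ω) / 2) / B ^ 2 -
      ((avl 4 ω + avr 4 ω) / 2 + R * (avl 2 ω + avr 4 ω) / 2) / L) ∂(PP n N) =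
      1 - 2 / 40 - QQ R / B ^ 2 - QQ R / L := by
    have e : (fun ω : Om n N => avl 2 ω - (1 + avl 2 ω) / 40 -
      (avl 4 ω + R * (avl 2 ω + avl 4 ω) / 2) / B ^ 2 -
      ((avl 4 ω + avr 4 ω) / 2 + R * (avl 2 ω + avr 4 ω) / 2) / L) = fun ω =>
      (1 - 1 / 40 - R / 2 / B ^ 2 - R / 2 / L) * avl 2 ω +
      (-(1 + R / 2) / B ^ 2 - 1 / 2 / L) * avl 4 ω + (-(1 / 2 + R / 2) / L) * avr 4 ω +
      (-1 / 40) := by
      ext ω; ring
    rw [e, int_comb I2 I4 J4, avl_val hn, avl_val hn, avr_val hN, m2_eq]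
    unfold QQ m4
    ring
  rw [h2, integral_const_mul] at h1
  have h3 : QQ R / B ^ 2 ≤ 1 / 10 := by
    rw [div_le_iff₀ (by positivity)]; linarith
  have h4 : QQ R / L ≤ 1 / 10 := by
    rw [div_le_iff₀ hL]; linarith
  have h5 : 1 / 2 ≤ (√n)⁻¹ * ∫ ω, ⟪ψ (XX A ρ ω), gg ω⟫ ∂(PP n N) := by linarith
  rw [inv_mul_eq_div, le_div_iff₀ hs0] at h5
  linarith

end

end Pool.Agent.W2helper18.HE
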